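import Pool.Agent.Y184.NT.StD
import Pool.Agent.W762.PG.PRES
import Pool.Agent.W240.PG.Frame
import Pool.Agent.W73.PG.PULL

/-!
# Project NT (helper184): pull-backs of regular canonical forms are regular
-/

set_option autoImplicit false
set_option linter.overlappingInstances false
set_option linter.unusedSectionVars false

open FF Polynomial Pool.Agent.W602.GT Pool.Agent.W603.LV Pool.Agent.W619.PQ

namespace Pool.Agent.Y297.NT

section

variable {k K : Type} [Field k] [CharZero k] [Field K] [Algebra k K]

/-- the field is finite over the field generated by a transcendence basis (as in Y172.UpA) -/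
theorem fd_basis [Algebra.EssFiniteType k K] {n : ℕ} {Z : Fin n → K}
    (hZ : IsTranscendenceBasis k Z) :
    FiniteDimensional (IntermediateField.adjoin k (Set.range Z)) K := by
  set K0 := IntermediateField.adjoin k (Set.range Z) with hK0
  have hess : Algebra.EssFiniteType K0 K := Algebra.EssFiniteType.of_comp k K0 K
  have halg : Algebra.IsAlgebraic K0 K := hZ.isAlgebraic_field
  obtain ⟨s, hs⟩ := IntermediateField.fg_top K0 K
  have h1 : FiniteDimensional K0 (IntermediateField.adjoin K0 (s : Set K)) :=
    IntermediateField.finiteDimensional_adjoin fun x _ => (halg.isAlgebraic x).isIntegral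
  rw [hs] at h1
  exact h1.equiv IntermediateField.topEquiv.toLinearEquiv

end

/-- **Pull-backs of regular canonical forms are regular.** -/
theorem t_Pull (hAbh : Pool.Agent.Y184.NT.StAbh) : Pool.Agent.Y184.NT.StPull := by
  classical
  intro K R _ _ _ _ _ _ _ n N hn hN z hz E hE ω hω hreg Q hQ D hD
  by_cases htriv : ∃ f : K, Q.ord (algebraMap K R f) ≠ 0
  · obtain ⟨e, P, hP⟩ := exists_over Q htriv
    have hPd : Divisorial n P := hAbh K R n N hn hN Q P e hP hQ
    obtain ⟨yP, EP, i0, hbas, hdual, -, hyreg, hpres⟩ :=
      Pool.Agent.W240.PG.Frame.main.{0, 0} Pool.Agent.W762.PG.main ℂ K n hn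
        (fun y hy => fd_basis hy) P hPd
    have h1 := Pool.Agent.W73.PG.PULL.form_eq (L := R) z yP hz hbas E EP hE hdual
      (m := 1) ω hω D
    rw [pow_one, pow_one] at h1
    rw [h1]
    refine Q.reg_mul ?_ ?_
    · have h9 : Ge Q 0 (Matrix.of fun a c => D a (algebraMap K R (yP c)) :
          Matrix (Fin n) (Fin n) R).det :=
        Pool.Agent.W619.PQ.ge_det Q _ fun a b => hD a _ (hP.reg.2 (hyreg b))
      exact h9
    · exact hP.reg.2 (hreg P hPd EP hpres)
  · push Not at htriv
    have h0 : ∀ f : K, Q.Reg (algebraMap K R f) := fun f => Or.inr (htriv f).ge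
    refine Q.reg_mul ?_ (h0 _)
    have h9 : Ge Q 0 (Matrix.of fun i j => D i (algebraMap K R (z j)) :
        Matrix (Fin n) (Fin n) R).det :=
      Pool.Agent.W619.PQ.ge_det Q _ fun a b => hD a _ (h0 _)
    exact h9

end Pool.Agent.Y297.NT
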